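import Pool.Agent.Helper19.HN.St

/-! # HN: module SET -/

namespace Pool.Agent.Helper84.HN.SET

open Ordinal Cardinal ZFSet Order Pool.Agent.Helper73.HODC Pool.Agent.Helper73.HM
open Pool.Agent.Helper73.HE Pool.Agent.Helper73.HU Pool.Agent.Helper19.HN

/-- `q` is one of the sets `cut (X k) i`, `k < i` -/
def Qs (X : Ordinal.{0} → ZFSet.{0}) (i : Ordinal.{0}) (q : ZFSet.{0}) : Prop :=
  ∃ k < i, q = cut (X k) i

/-- stationarily many cuts of `x` are above a set which is not of the form `cut (X k) i` -/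
def Bad (c : Ordinal.{0}) (A : Set Ordinal.{0}) (X : Ordinal.{0} → ZFSet.{0}) (x : ZFSet.{0}) :
    Prop := Stat {i | i ∈ A ∧ ∃ y ∈ hodPow i, ¬ Qs X i y ∧ lt i y (cut x i)} c

/-- the choice of `z` -/
theorem exists_z (h : StRK) {c : Cardinal.{0}} {A : Set Ordinal.{0}}
    {X : Ordinal.{0} → ZFSet.{0}} (hA : Atm c.ord A)
    (hS : Stat {i | i ∈ A ∧ i ∈ BadSet X} c.ord) :
    ∃ z, HOD z ∧ (∀ x, Kz c.ord A z x → ¬ Bad c.ord A X x) ∧
      Stat {i | i ∈ A ∧ ∃ q ∈ hodPow i, ¬ Qs X i q ∧ lt i q (vv c.ord z i)} c.ord := by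
  classical
  by_cases hb : ∃ x ∈ hodPow c.ord, Bad c.ord A X x
  · obtain ⟨rk, hrk⟩ := h c.ord A hA
    obtain ⟨x0, hx0, hx0b⟩ := hb
    have hne : Set.Nonempty {a : Ordinal.{0} | ∃ x ∈ hodPow c.ord, Bad c.ord A X x ∧ rk x = a} :=
      ⟨rk x0, x0, hx0, hx0b, rfl⟩
    obtain ⟨z, hz, hzb, hzr⟩ := csInf_mem hne
    have hmin : ∀ x ∈ hodPow c.ord, rk x < rk z → ¬ Bad c.ord A X x := by
      intro x hx hlt hbx
      have h1 : sInf {a : Ordinal.{0} | ∃ x ∈ hodPow c.ord, Bad c.ord A X x ∧ rk x = a} ≤ rk x :=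
        csInf_le' ⟨x, hx, hbx, rfl⟩
      rw [← hzr] at h1
      exact absurd hlt (not_lt.2 h1)
    refine ⟨z, HOD_of_mem hz, fun x hx => hmin x hx.1 ((hrk x hx.1 z hz).1.1 (hx.2 hz)), ?_⟩
    refine hzb.mono fun i hi _ => ⟨hi.1, ?_⟩
    obtain ⟨q, hq, hq1, hq2⟩ := hi.2
    exact ⟨q, hq, hq1, lt_vv.2 ⟨hq, fun _ => hq2.2 (cut_mem hz i)⟩⟩
  · refine ⟨(Order.succ c.ord).toZFSet, HOD_toZFSet _, fun x hx hbx => hb ⟨x, hx.1, hbx⟩, ?_⟩
    refine hS.mono fun i hi _ => ⟨hi.1, ?_⟩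
    obtain ⟨q, hq, hq1⟩ := hi.2
    refine ⟨q, hq, ?_, lt_vv.2 ⟨hq, fun h' => absurd h' (succ_not_mem c.ord)⟩⟩
    rintro ⟨k, hk, hk'⟩
    exact hq1 k hk hk'.symm

/-- the choice of `y` -/
theorem exists_y (X : Ordinal.{0} → ZFSet.{0}) (v : Ordinal.{0} → ZFSet.{0}) (i : Ordinal.{0}) :
    ∃ y : ZFSet.{0}, ¬ (Qs X i y ∧ lt i y (v i)) ∧
      (y ∉ hodPow i → ∀ q ∈ hodPow i, Qs X i q ∧ lt i q (v i)) ∧
      ∀ q, lt i q y → Qs X i q ∧ lt i q (v i) := by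
  by_cases hc : ∃ q ∈ hodPow i, ¬ (Qs X i q ∧ lt i q (v i))
  · obtain ⟨y, hy, hy1, hy2⟩ := lt_min hc
    exact ⟨y, hy1, fun h' => absurd hy h', fun q hq => not_not.1 (hy2 q hq)⟩
  · push Not at hc
    refine ⟨(Order.succ i).toZFSet, fun h' => succ_not_mem i h'.2.1, fun _ => hc,
      fun q hq => hc q hq.1⟩

theorem set (h : StRK) : StSET := by
  intro c A X hc hA hX hS
  classical
  have hc' : ℵ₀ < c := by
    have h1 := hA.cof
    rw [hc.cof_ord] at h1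
    exact h1
  obtain ⟨z, hz1, hz2, hz3⟩ := exists_z h hA hS
  choose y hy1 hy2 hy3 using exists_y X (vv c.ord z)
  have hlow : AE c.ord A (fun i => ∀ q, lt i q (y i) →
      ∃ k < i, q = cut (X k) i ∧ Kz c.ord A z (X k)) := by
    have h1 : AE c.ord A (fun i => ∀ k < i, lt i (cut (X k) i) (vv c.ord z i) →
        Kz c.ord A z (X k)) := by
      refine AE_diag hc hc' (Q := fun k i => lt i (cut (X k) i) (vv c.ord z i) →
        Kz c.ord A z (X k)) fun k hk => ?_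
      by_cases hK : Kz c.ord A z (X k)
      · exact AE_of_forall hA.cof fun _ _ _ _ => hK
      · have hXk := hX.1 k hk
        have h2 : z ∈ hodPow c.ord ∧ ¬ Prec c.ord A (X k) z := by
          unfold Kz at hK
          push Not at hK
          exact hK hXk
        have h3 := (Prec.mem_dec hA hXk h2.1).resolve_left h2.2
        exact h3.mono fun i _ _ h4 h5 => absurd ((lt_vv.1 h5).2 h2.1) h4
    refine h1.mono fun i _ _ h2 q hq => ?_
    obtain ⟨⟨k, hk, hqk⟩, h3⟩ := hy3 i q hq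
    refine ⟨k, hk, hqk, h2 k hk ?_⟩
    rw [← hqk]
    exact h3
  refine ⟨z, y, hz1, ?_, ?_, hlow, ?_, ?_⟩
  · -- stat
    refine hz3.mono fun i hi _ => ⟨hi.1, ?_⟩
    obtain ⟨q, hq, hq1, hq2⟩ := hi.2
    rcases lt_tri (g := i) (y := y i) hq with h1 | h1 | h1
    · exact absurd (hy3 i q h1).1 hq1
    · rw [← h1]
      exact hq2
    · exact lt_tr h1 hq2
  · -- new
    intro i hi k hk hk'
    exact hy1 i ⟨⟨k, hk, hk'.symm⟩, hi.2⟩
  · -- upper bound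
    intro x hx
    obtain ⟨k, hk, rfl⟩ := hX.2 x hx.1
    have h1 := hz2 _ hx
    have h2 : AE c.ord A (fun i => ¬ ∃ q ∈ hodPow i, ¬ Qs X i q ∧ lt i q (cut (X k) i)) := by
      rw [AE_iff]
      intro h3
      refine h1 (h3.mono fun i hi _ => ⟨hi.1, ?_⟩)
      exact not_not.1 hi.2
    have h3 : AE c.ord A (fun i => lt i (cut (X k) i) (vv c.ord z i)) := by
      by_cases hz : z ∈ hodPow c.ord
      · exact AE.mono (hx.2 hz) fun i _ _ h4 => lt_vv.2 ⟨cut_mem hx.1 i, fun _ => h4⟩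
      · exact AE_of_forall hA.cof fun i _ _ => lt_vv.2 ⟨cut_mem hx.1 i, fun h' => absurd h' hz⟩
    refine ((h2.and hA.cof h3).and hA.cof (AE_gt hA.cof A hk)).mono ?_
    rintro i - - ⟨⟨h4, h5⟩, h6⟩
    rcases lt_tri (g := i) (y := y i) (cut_mem hx.1 i) with h7 | h7 | h7
    · exact h7
    · exfalso
      refine hy1 i ⟨⟨k, h6, h7.symm⟩, ?_⟩
      rw [← h7]
      exact h5
    · exfalso
      refine hy1 i ⟨?_, lt_tr h7 h5⟩
      by_contra h8
      exact h4 ⟨y i, h7.1, h8, h7⟩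
  · -- least
    intro U' hU'
    rw [AE_iff]
    intro hSt
    have hch : ∀ i, ∃ k, (∃ k < i, U' i = cut (X k) i ∧ Kz c.ord A z (X k)) →
        k < i ∧ U' i = cut (X k) i ∧ Kz c.ord A z (X k) := by
      intro i
      by_cases hi : ∃ k < i, U' i = cut (X k) i ∧ Kz c.ord A z (X k)
      · obtain ⟨k, hk⟩ := hi
        exact ⟨k, fun _ => hk⟩
      · exact ⟨0, fun h' => absurd h' hi⟩
    choose r hr using hch
    have h1 : Stat {a | (a ∈ A ∧ ¬ ¬ lt a (U' a) (y a)) ∧ ∀ q, lt a q (y a) →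
        ∃ k < a, q = cut (X k) a ∧ Kz c.ord A z (X k)} c.ord :=
      stat_AE hA.cof hSt (fun a ha => ha.1) hlow
    obtain ⟨b, hb, h2⟩ := fodor hc hc' (r := r) h1 (by
      rintro a ⟨⟨haA, ha1⟩, ha2⟩ _ _
      exact (hr a (ha2 _ (not_not.1 ha1))).1)
    obtain ⟨a0, ⟨⟨⟨haA, ha1⟩, ha2⟩, ha3⟩, -, hac⟩ :=
      h2 _ (club_univ (isSuccLimit_of_cof hA.cof))
    have hKb : Kz c.ord A z (X b) := by
      have h3 := (hr a0 (ha2 _ (not_not.1 ha1))).2.2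
      rw [ha3] at h3
      exact h3
    obtain ⟨a, ⟨⟨⟨haA', ha1'⟩, ha2'⟩, ha3'⟩, -, ha4⟩ :=
      stat_AE_exists hA.cof h2 (fun a ha => ha.1.1.1) (hU' _ hKb)
    have h4 := (hr a (ha2' _ (not_not.1 ha1'))).2.1
    rw [ha3'] at h4
    rw [← h4] at ha4
    exact lt_irr ha4

end Pool.Agent.Helper84.HN.SET
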